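import Pool.Agent.W4.CF.Stms

/-!
# Project CF, part PARAM: irrational integers of trace zero of a cubic field
-/

set_option autoImplicit false

namespace Pool.Agent.W29.CF

open NumberField Finset Pool.Agent.W4.CF

variable {K : Type} [Field K] [NumberField K]

lemma li3 (hK : Module.finrank ℚ K = 3) {θ : K} (hθ : ∀ r : ℚ, θ ≠ algebraMap ℚ K r) :
    LinearIndependent ℚ (fun i : Fin 3 => θ ^ (i : ℕ)) := by
  have h1 : (minpoly ℚ θ).natDegree ∣ 3 := by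
    rw [← hK]; exact minpoly.degree_dvd (Algebra.IsIntegral.isIntegral θ)
  have h2 : (minpoly ℚ θ).natDegree ≠ 1 := by
    intro h
    rw [minpoly.natDegree_eq_one_iff] at h
    obtain ⟨r, hr⟩ := h
    exact hθ r hr.symm
  have h3 : (minpoly ℚ θ).natDegree = 3 := by
    rcases (Nat.dvd_prime Nat.prime_three).1 h1 with h | h
    · exact absurd h h2
    · exact h
  have h4 := linearIndependent_pow (K := ℚ) θ
  rw [h3] at h4
  exact h4

/-- the basis `1, θ, θ²` -/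
noncomputable def b3 (hK : Module.finrank ℚ K = 3) {θ : K}
    (hθ : ∀ r : ℚ, θ ≠ algebraMap ℚ K r) : Module.Basis (Fin 3) ℚ K :=
  basisOfLinearIndependentOfCardEqFinrank (li3 hK hθ) (by simp [hK])

lemma b3_apply (hK : Module.finrank ℚ K = 3) {θ : K}
    (hθ : ∀ r : ℚ, θ ≠ algebraMap ℚ K r) (i : Fin 3) : b3 hK hθ i = θ ^ (i : ℕ) := by
  unfold b3
  rw [coe_basisOfLinearIndependentOfCardEqFinrank]

lemma repr_eq (hK : Module.finrank ℚ K = 3) {θ : K}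
    (hθ : ∀ r : ℚ, θ ≠ algebraMap ℚ K r) (x y w : ℚ) (i : Fin 3) :
    (b3 hK hθ).repr (algebraMap ℚ K x + algebraMap ℚ K y * θ + algebraMap ℚ K w * θ ^ 2) i =
      ![x, y, w] i := by
  have h : algebraMap ℚ K x + algebraMap ℚ K y * θ + algebraMap ℚ K w * θ ^ 2 =
      ∑ j, (![x, y, w] j) • b3 hK hθ j := by
    rw [Fin.sum_univ_three, b3_apply, b3_apply, b3_apply]
    simp [Algebra.smul_def]
  rw [h, Module.Basis.repr_sum_self]

lemma traces (hK : Module.finrank ℚ K = 3) {θ : K} (hθ : ∀ r : ℚ, θ ≠ algebraMap ℚ K r)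
    {a b : ℤ} (h : θ ^ 3 = a * θ + b) :
    Algebra.trace ℚ K θ = 0 ∧ Algebra.trace ℚ K (θ ^ 2) = 2 * a := by
  constructor
  · rw [Algebra.trace_eq_matrix_trace (b3 hK hθ), Matrix.trace, Fin.sum_univ_three]
    simp only [Matrix.diag_apply, Algebra.leftMulMatrix_eq_repr_mul, b3_apply]
    have e0 : θ * θ ^ ((0 : Fin 3) : ℕ) = algebraMap ℚ K 0 + algebraMap ℚ K 1 * θ +
        algebraMap ℚ K 0 * θ ^ 2 := by simp
    have e1 : θ * θ ^ ((1 : Fin 3) : ℕ) = algebraMap ℚ K 0 + algebraMap ℚ K 0 * θ +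
        algebraMap ℚ K 1 * θ ^ 2 := by simp; ring
    have e2 : θ * θ ^ ((2 : Fin 3) : ℕ) = algebraMap ℚ K b + algebraMap ℚ K a * θ +
        algebraMap ℚ K 0 * θ ^ 2 := by
      have : θ * θ ^ ((2 : Fin 3) : ℕ) = θ ^ 3 := by simp; ring
      rw [this, h]; simp; ring
    rw [e0, e1, e2, repr_eq, repr_eq, repr_eq]
    simp
  · rw [Algebra.trace_eq_matrix_trace (b3 hK hθ), Matrix.trace, Fin.sum_univ_three]
    simp only [Matrix.diag_apply, Algebra.leftMulMatrix_eq_repr_mul, b3_apply]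
    have e0 : θ ^ 2 * θ ^ ((0 : Fin 3) : ℕ) = algebraMap ℚ K 0 + algebraMap ℚ K 0 * θ +
        algebraMap ℚ K 1 * θ ^ 2 := by simp
    have e1 : θ ^ 2 * θ ^ ((1 : Fin 3) : ℕ) = algebraMap ℚ K b + algebraMap ℚ K a * θ +
        algebraMap ℚ K 0 * θ ^ 2 := by
      have : θ ^ 2 * θ ^ ((1 : Fin 3) : ℕ) = θ ^ 3 := by simp; ring
      rw [this, h]; simp; ring
    have e2 : θ ^ 2 * θ ^ ((2 : Fin 3) : ℕ) = algebraMap ℚ K 0 + algebraMap ℚ K b * θ +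
        algebraMap ℚ K a * θ ^ 2 := by
      have : θ ^ 2 * θ ^ ((2 : Fin 3) : ℕ) = θ * θ ^ 3 := by simp; ring
      rw [this, h]; simp; ring
    rw [e0, e1, e2, repr_eq, repr_eq, repr_eq]
    simp
    ring

lemma exists_coords (hK : Module.finrank ℚ K = 3) {θ : K}
    (hθ : ∀ r : ℚ, θ ≠ algebraMap ℚ K r) (t : K) :
    ∃ x y w : ℚ, t = algebraMap ℚ K x + algebraMap ℚ K y * θ + algebraMap ℚ K w * θ ^ 2 := by
  refine ⟨(b3 hK hθ).repr t 0, (b3 hK hθ).repr t 1, (b3 hK hθ).repr t 2, ?_⟩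
  conv_lhs => rw [← (b3 hK hθ).sum_repr t]
  rw [Fin.sum_univ_three, b3_apply, b3_apply, b3_apply]
  simp [Algebra.smul_def]

lemma trace_rat (hK : Module.finrank ℚ K = 3) (x : ℚ) :
    Algebra.trace ℚ K (algebraMap ℚ K x) = 3 * x := by
  rw [Algebra.trace_algebraMap, hK]
  simp

lemma trace_mul_rat (x : ℚ) (t : K) :
    Algebra.trace ℚ K (algebraMap ℚ K x * t) = x * Algebra.trace ℚ K t := by
  rw [← Algebra.smul_def, map_smul, smul_eq_mul]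

lemma isInt {θ : K} {a b : ℤ} (h : θ ^ 3 = a * θ + b) : IsIntegral ℤ θ := by
  refine ⟨Polynomial.X ^ 3 - Polynomial.C a * Polynomial.X - Polynomial.C b, ?_, ?_⟩
  · rw [sub_sub]
    apply Polynomial.monic_X_pow_sub
    compute_degree!
  · rw [Polynomial.eval₂_sub, Polynomial.eval₂_sub, Polynomial.eval₂_pow, Polynomial.eval₂_X,
      Polynomial.eval₂_mul, Polynomial.eval₂_C, Polynomial.eval₂_X, Polynomial.eval₂_C, h]
    simp

lemma int_trace {t : K} (h : IsIntegral ℤ t) : ∃ m : ℤ, Algebra.trace ℚ K t = m := by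
  have h1 := Algebra.isIntegral_trace (L := ℚ) h
  obtain ⟨m, hm⟩ := IsIntegrallyClosed.isIntegral_iff.1 h1
  exact ⟨m, by rw [← hm]; simp⟩

/-- size of the conjugates -/
lemma size_conj {θ : K} {a b : ℤ} (h : θ ^ 3 = a * θ + b) (σ : K →ₐ[ℚ] ℂ) {H : ℝ} (hH : 0 ≤ H)
    (ha : |(a : ℝ)| ≤ H ^ 2) (hb : |(b : ℝ)| ≤ H ^ 3) : ‖σ θ‖ ≤ 2 * H := by
  have h1 : (σ θ) ^ 3 = a * σ θ + b := by
    rw [← map_pow, h]; simp
  have h2 : ‖σ θ‖ ^ 3 ≤ H ^ 2 * ‖σ θ‖ + H ^ 3 := by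
    rw [← norm_pow, h1]
    calc ‖(a : ℂ) * σ θ + b‖ ≤ ‖(a : ℂ) * σ θ‖ + ‖(b : ℂ)‖ := norm_add_le _ _
      _ = |(a : ℝ)| * ‖σ θ‖ + |(b : ℝ)| := by
        rw [norm_mul, Complex.norm_intCast, Complex.norm_intCast]
      _ ≤ H ^ 2 * ‖σ θ‖ + H ^ 3 := by gcongr
  by_contra hc
  push Not at hc
  set t := ‖σ θ‖ with ht
  have ht0 : 0 < t := by linarith
  have h3 : 4 * H ^ 2 < t ^ 2 := by nlinarith
  have h4 : 4 * H ^ 2 * t < t ^ 2 * t := mul_lt_mul_of_pos_right h3 ht0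
  have h5 : H ^ 3 ≤ H ^ 2 * t := by
    have : H ^ 3 = H ^ 2 * H := by ring
    rw [this]
    apply mul_le_mul_of_nonneg_left _ (by positivity)
    linarith
  have h6 : t ^ 3 = t ^ 2 * t := by ring
  have h7 : 0 ≤ H ^ 2 * t := by positivity
  linarith

theorem t_PARAM : S_PARAM := by
  intro K _ _ hK a0 b0 θ0 hθ0 h0
  have hirr : ∀ (r s : ℚ), algebraMap ℚ K r * θ0 = algebraMap ℚ K s → r = 0 := by
    intro r s h
    by_contra hr
    apply hθ0 (s / r)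
    rw [map_div₀, ← h]
    have : algebraMap ℚ K r ≠ 0 := by
      rw [Ne, map_eq_zero]; exact hr
    field_simp
  have hD : 4 * a0 ^ 3 - 27 * b0 ^ 2 ≠ 0 := by
    intro hD
    by_cases ha : a0 = 0
    · have hb : b0 = 0 := by
        rw [ha] at hD
        have : b0 ^ 2 = 0 := by linarith
        exact pow_eq_zero_iff (by norm_num) |>.1 this
      rw [ha, hb] at h0
      have h1 : θ0 ^ 3 = 0 := by rw [h0]; simp
      have h2 : θ0 = 0 := pow_eq_zero_iff (by norm_num) |>.1 h1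
      exact hθ0 0 (by rw [h2]; simp)
    · set r : ℚ := -3 * b0 / (2 * a0) with hr
      have haq : (a0 : ℚ) ≠ 0 := Int.cast_ne_zero.2 ha
      have hDq : 4 * (a0 : ℚ) ^ 3 - 27 * (b0 : ℚ) ^ 2 = 0 := by exact_mod_cast hD
      have e1 : 3 * r ^ 2 = a0 := by
        rw [hr]; field_simp; linarith
      have e2 : 2 * r ^ 3 = -b0 := by
        rw [hr]; field_simp; linear_combination (b0 : ℚ) * hDq
      have e3 : (θ0 - algebraMap ℚ K r) ^ 2 * (θ0 + 2 * algebraMap ℚ K r) = 0 := by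
        have f1 : 3 * (algebraMap ℚ K r) ^ 2 = a0 := by
          have := congrArg (algebraMap ℚ K) e1
          simpa using this
        have f2 : 2 * (algebraMap ℚ K r) ^ 3 = -b0 := by
          have := congrArg (algebraMap ℚ K) e2
          simpa using this
        linear_combination h0 - θ0 * f1 + f2
      rcases mul_eq_zero.1 e3 with h | h
      · have h' := pow_eq_zero_iff (by norm_num) |>.1 h
        exact hθ0 r (sub_eq_zero.1 h')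
      · apply hθ0 (-2 * r)
        rw [map_mul]
        have : algebraMap ℚ K (-2) = -2 := by simp
        rw [this]
        linear_combination h
  refine ⟨hD, ?_⟩
  set M1 : ℝ := ∑ σ : K →ₐ[ℚ] ℂ, ‖σ θ0‖ with hM1
  set M2 : ℝ := ∑ σ : K →ₐ[ℚ] ℂ, ‖σ θ0‖ ^ 2 with hM2
  have hM10 : 0 ≤ M1 := sum_nonneg fun _ _ => norm_nonneg _
  have hM20 : 0 ≤ M2 := sum_nonneg fun _ _ => by positivity
  refine ⟨4 * (a0 : ℝ) ^ 2 * M1 + 18 * |(b0 : ℝ)| * M2 + (4 * |(a0 : ℝ)| * M2 +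
    6 * |(b0 : ℝ)| * M1) + 1, by positivity, ?_⟩
  intro a b θ hθ h
  obtain ⟨m1, hm1⟩ := int_trace (t := θ * θ0) ((isInt h).mul (isInt h0))
  obtain ⟨m2, hm2⟩ := int_trace (t := θ * θ0 ^ 2) ((isInt h).mul ((isInt h0).pow 2))
  obtain ⟨x, y, w, hxyw⟩ := exists_coords hK hθ0 θ
  obtain ⟨t1, t2⟩ := traces hK hθ0 h0
  have t0 := trace_rat (K := K) hK
  have t3 : Algebra.trace ℚ K (θ0 ^ 3) = 3 * b0 := by
    have : θ0 ^ 3 = algebraMap ℚ K a0 * θ0 + algebraMap ℚ K b0 := by rw [h0]; simp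
    rw [this, map_add, trace_mul_rat, t1, t0]; ring
  have t4 : Algebra.trace ℚ K (θ0 ^ 4) = 2 * a0 ^ 2 := by
    have : θ0 ^ 4 = algebraMap ℚ K a0 * θ0 ^ 2 + algebraMap ℚ K b0 * θ0 := by
      simp; linear_combination θ0 * h0
    rw [this, map_add, trace_mul_rat, trace_mul_rat, t1, t2]; ring
  have g0 : 3 * x + 2 * a0 * w = 0 := by
    have := (traces hK hθ h).1
    rw [hxyw, map_add, map_add, trace_mul_rat, trace_mul_rat, t0, t1, t2] at this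
    linarith
  have g1 : 2 * a0 * y + 3 * b0 * w = m1 := by
    have e : θ * θ0 = algebraMap ℚ K x * θ0 + algebraMap ℚ K y * θ0 ^ 2 +
        algebraMap ℚ K w * θ0 ^ 3 := by rw [hxyw]; ring
    rw [e, map_add, map_add, trace_mul_rat, trace_mul_rat, trace_mul_rat, t1, t2, t3] at hm1
    linarith
  have g2 : 2 * a0 * x + 3 * b0 * y + 2 * a0 ^ 2 * w = m2 := by
    have e : θ * θ0 ^ 2 = algebraMap ℚ K x * θ0 ^ 2 + algebraMap ℚ K y * θ0 ^ 3 +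
        algebraMap ℚ K w * θ0 ^ 4 := by rw [hxyw]; ring
    rw [e, map_add, map_add, trace_mul_rat, trace_mul_rat, trace_mul_rat, t2, t3, t4] at hm2
    linarith
  set D0 : ℤ := 4 * a0 ^ 3 - 27 * b0 ^ 2 with hD0
  set u : ℤ := 2 * a0 ^ 2 * m1 - 9 * b0 * m2 with hu
  set v : ℤ := 2 * a0 * m2 - 3 * b0 * m1 with hv
  have hD0q : (D0 : ℚ) = 4 * a0 ^ 3 - 27 * b0 ^ 2 := by rw [hD0]; push_cast; ring
  have huq : (u : ℚ) = 2 * a0 ^ 2 * m1 - 9 * b0 * m2 := by rw [hu]; push_cast; ring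
  have hvq : (v : ℚ) = 2 * a0 * m2 - 3 * b0 * m1 := by rw [hv]; push_cast; ring
  have hx : x = -(2 * a0 * w) / 3 := by linarith
  have q1 : (D0 : ℚ) * y = u := by
    rw [hD0q, huq, ← g1, ← g2, hx]; ring
  have q2 : (D0 : ℚ) * w = 3 * v := by
    rw [hD0q, hvq, ← g1, ← g2, hx]; ring
  have q3 : (D0 : ℚ) * x = -2 * a0 * v := by
    rw [hx]; linear_combination (-2 * a0 / 3 : ℚ) * q2
  have hW : (D0 : K) * θ = u * θ0 + v * (3 * θ0 ^ 2 - 2 * a0) := by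
    have c1 : (D0 : K) * algebraMap ℚ K y = u := by
      have := congrArg (algebraMap ℚ K) q1
      simpa using this
    have c2 : (D0 : K) * algebraMap ℚ K w = 3 * v := by
      have := congrArg (algebraMap ℚ K) q2
      simpa using this
    have c3 : (D0 : K) * algebraMap ℚ K x = -2 * a0 * v := by
      have := congrArg (algebraMap ℚ K) q3
      simpa using this
    rw [hxyw]
    linear_combination c3 + θ0 * c1 + θ0 ^ 2 * c2
  have hW3 : ((D0 : K) * θ) ^ 3 = (Fa a0 b0 u v : K) * ((D0 : K) * θ) + (Fb a0 b0 u v : K) := by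
    rw [hW]
    unfold Fa Fb
    push_cast
    linear_combination (1 * (u : K) ^ 3 + 9 * (u : K) ^ 2 * v * θ0 - 9 * (u : K) * v ^ 2 * a0 +
      27 * (u : K) * v ^ 2 * θ0 ^ 2 - 27 * (v : K) ^ 3 * a0 * θ0 + 27 * (v : K) ^ 3 * b0 +
      27 * (v : K) ^ 3 * θ0 ^ 3) * h0
  have hD0K : (D0 : K) ≠ 0 := Int.cast_ne_zero.2 hD
  have hlin : algebraMap ℚ K ((D0 : ℚ) ^ 3 * a - (Fa a0 b0 u v : ℚ) * D0) * θ =
      algebraMap ℚ K ((Fb a0 b0 u v : ℚ) - (D0 : ℚ) ^ 3 * b) := by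
    simp only [map_sub, map_mul, map_pow, map_intCast]
    linear_combination hW3 - (D0 : K) ^ 3 * h
  have hirr' : (D0 : ℚ) ^ 3 * a - (Fa a0 b0 u v : ℚ) * D0 = 0 := by
    by_contra hr
    apply hθ (((Fb a0 b0 u v : ℚ) - (D0 : ℚ) ^ 3 * b) / ((D0 : ℚ) ^ 3 * a -
      (Fa a0 b0 u v : ℚ) * D0))
    rw [map_div₀, ← hlin]
    have : algebraMap ℚ K ((D0 : ℚ) ^ 3 * a - (Fa a0 b0 u v : ℚ) * D0) ≠ 0 := by
      rw [Ne, map_eq_zero]; exact hr
    rw [mul_div_assoc, mul_div_cancel₀]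
    exact this
  have hq0 : (D0 : ℚ) ≠ 0 := Int.cast_ne_zero.2 hD
  have r1 : D0 ^ 2 * a = Fa a0 b0 u v := by
    have : (D0 : ℚ) * ((D0 : ℚ) ^ 2 * a - (Fa a0 b0 u v : ℚ)) = 0 := by linarith
    rcases mul_eq_zero.1 this with h | h
    · exact absurd h hq0
    · have h' : ((D0 ^ 2 * a : ℤ) : ℚ) = ((Fa a0 b0 u v : ℤ) : ℚ) := by push_cast; linarith
      exact_mod_cast h'
  have r2 : D0 ^ 3 * b = Fb a0 b0 u v := by
    rw [hirr', map_zero, zero_mul] at hlin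
    have h1 := (map_eq_zero (algebraMap ℚ K)).1 hlin.symm
    have h' : ((D0 ^ 3 * b : ℤ) : ℚ) = ((Fb a0 b0 u v : ℤ) : ℚ) := by push_cast; linarith
    exact_mod_cast h'
  refine ⟨u, v, r1, r2, ?_⟩
  intro H hH ha hb
  have hs := fun σ : K →ₐ[ℚ] ℂ => size_conj h σ hH ha hb
  have s1 : |(m1 : ℝ)| ≤ 2 * H * M1 := by
    have e := trace_eq_sum_embeddings (K := ℚ) (L := K) ℂ (x := θ * θ0)
    rw [hm1] at e
    have e' : ((m1 : ℤ) : ℂ) = ∑ σ : K →ₐ[ℚ] ℂ, σ (θ * θ0) := by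
      rw [← e]; simp
    calc |(m1 : ℝ)| = ‖((m1 : ℤ) : ℂ)‖ := by rw [Complex.norm_intCast]
      _ = ‖∑ σ : K →ₐ[ℚ] ℂ, σ (θ * θ0)‖ := by rw [e']
      _ ≤ ∑ σ : K →ₐ[ℚ] ℂ, ‖σ (θ * θ0)‖ := norm_sum_le _ _
      _ ≤ ∑ σ : K →ₐ[ℚ] ℂ, 2 * H * ‖σ θ0‖ := by
        apply sum_le_sum
        intro σ _
        rw [map_mul, norm_mul]
        exact mul_le_mul_of_nonneg_right (hs σ) (norm_nonneg _)
      _ = 2 * H * M1 := by rw [← mul_sum]
  have s2 : |(m2 : ℝ)| ≤ 2 * H * M2 := by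
    have e := trace_eq_sum_embeddings (K := ℚ) (L := K) ℂ (x := θ * θ0 ^ 2)
    rw [hm2] at e
    have e' : ((m2 : ℤ) : ℂ) = ∑ σ : K →ₐ[ℚ] ℂ, σ (θ * θ0 ^ 2) := by
      rw [← e]; simp
    calc |(m2 : ℝ)| = ‖((m2 : ℤ) : ℂ)‖ := by rw [Complex.norm_intCast]
      _ = ‖∑ σ : K →ₐ[ℚ] ℂ, σ (θ * θ0 ^ 2)‖ := by rw [e']
      _ ≤ ∑ σ : K →ₐ[ℚ] ℂ, ‖σ (θ * θ0 ^ 2)‖ := norm_sum_le _ _
      _ ≤ ∑ σ : K →ₐ[ℚ] ℂ, 2 * H * ‖σ θ0‖ ^ 2 := by
        apply sum_le_sum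
        intro σ _
        rw [map_mul, map_pow, norm_mul, norm_pow]
        exact mul_le_mul_of_nonneg_right (hs σ) (by positivity)
      _ = 2 * H * M2 := by rw [← mul_sum]
  have p1 : 0 ≤ 4 * (a0 : ℝ) ^ 2 * M1 := by positivity
  have p2 : 0 ≤ 18 * |(b0 : ℝ)| * M2 := by positivity
  have p3 : 0 ≤ 4 * |(a0 : ℝ)| * M2 := by positivity
  have p4 : 0 ≤ 6 * |(b0 : ℝ)| * M1 := by positivity
  constructor
  · have : (u : ℝ) = 2 * a0 ^ 2 * m1 - 9 * b0 * m2 := by rw [hu]; push_cast; ring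
    rw [this]
    calc |2 * (a0 : ℝ) ^ 2 * m1 - 9 * b0 * m2| ≤ |2 * (a0 : ℝ) ^ 2 * m1| + |9 * (b0 : ℝ) * m2| :=
          abs_sub _ _
      _ = 2 * (a0 : ℝ) ^ 2 * |(m1 : ℝ)| + 9 * |(b0 : ℝ)| * |(m2 : ℝ)| := by
        rw [abs_mul, abs_mul, abs_mul, abs_mul]
        norm_num
      _ ≤ 2 * (a0 : ℝ) ^ 2 * (2 * H * M1) + 9 * |(b0 : ℝ)| * (2 * H * M2) := by gcongr
      _ = (4 * (a0 : ℝ) ^ 2 * M1 + 18 * |(b0 : ℝ)| * M2) * H := by ring
      _ ≤ _ := by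
        apply mul_le_mul_of_nonneg_right _ hH
        linarith
  · have : (v : ℝ) = 2 * a0 * m2 - 3 * b0 * m1 := by rw [hv]; push_cast; ring
    rw [this]
    calc |2 * (a0 : ℝ) * m2 - 3 * b0 * m1| ≤ |2 * (a0 : ℝ) * m2| + |3 * (b0 : ℝ) * m1| :=
          abs_sub _ _
      _ = 2 * |(a0 : ℝ)| * |(m2 : ℝ)| + 3 * |(b0 : ℝ)| * |(m1 : ℝ)| := by
        rw [abs_mul, abs_mul, abs_mul, abs_mul]
        norm_num
      _ ≤ 2 * |(a0 : ℝ)| * (2 * H * M2) + 3 * |(b0 : ℝ)| * (2 * H * M1) := by gcongr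
      _ = (4 * |(a0 : ℝ)| * M2 + 6 * |(b0 : ℝ)| * M1) * H := by ring
      _ ≤ _ := by
        apply mul_le_mul_of_nonneg_right _ hH
        linarith

end Pool.Agent.W29.CF
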